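import Pool.Agent.H9.Lap.Targets

/-!
# REA: Regime A
-/

namespace Pool.Agent.H59.Lap.REA

open Finset Classical Pool.Agent.H9.Lap

theorem rea (hKAB : T_KAB) (hG0 : T_G0) (hEDG : T_EDG) (hREP : T_REP) (hHIG : T_HIG)
    (hSEP : T_SEP) (hSUM : T_SUM) (hCNT : T_CNT) (hNU0 : T_NU0) : T_REA := by
  intro V _ F f t lam hB a ha h6
  have hctx := hB.toCtx
  obtain ⟨v₀, -⟩ := hB.fne
  obtain ⟨b, hb⟩ := @Finite.exists_min V ℝ _ ⟨v₀⟩ _ f
  have hK := hKAB V F f t lam hctx hB.fne a b ha hb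
  obtain ⟨n, hn⟩ : ∃ n : ℝ, n = (Fintype.card V : ℝ) := ⟨_, rfl⟩
  obtain ⟨L, hL⟩ : ∃ L : ℝ, L = lam - t := ⟨_, rfl⟩
  have ht1 : (1 : ℝ) ≤ t := by exact_mod_cast hctx.t1
  have hL0 : 0 ≤ L := by rw [hL]; exact hK.L0
  have hL1 : L < 1 := by rw [hL]; linarith [hctx.lt]
  have hq : L * (n - lam - 2) ≤ 2 * t := by rw [hL, hn]; exact hB.hq
  have hnu := hNU0 t n L ht1 (by rw [hn]; exact hB.big) hL0 hL1 (by
    have e : n - t - L - 2 = n - lam - 2 := by rw [hL]; ring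
    rw [e]
    exact hq)
  have hL6 : lam - t < 1 / 6 := by
    rw [← hL]
    linarith [hnu.1]
  obtain ⟨w0, hRA⟩ := hG0 V F f t lam hctx hB.fne a ha h6 hL6
  obtain ⟨-, -, -, haS⟩ := hEDG V F f t lam a w0 hRA
  obtain ⟨C, rep, hRep⟩ := hREP V F f t lam a w0 hRA
  have hHigh := hHIG V F f t lam a w0 C rep hRA hRep
  obtain ⟨-, hs2, hs3, hs4⟩ := hSEP V F f t lam a w0 hRA hHigh
  obtain ⟨hsum1, hsum2⟩ := hSUM V F f t lam hctx.eig hctx.sum0 hs4 hs3
  obtain ⟨hc1, hc2, hc3, hc4⟩ := hCNT V F f t lam a w0 C rep hRA hRep hs2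
  -- the quantities
  obtain ⟨P0, hP0⟩ : ∃ P : ℝ, P = ∑ s ∈ S0 F f t, f s := ⟨_, rfl⟩
  obtain ⟨U, hU⟩ : ∃ U : ℝ, U = ∑ c ∈ Cst F f t, (- f c) := ⟨_, rfl⟩
  have hS0pos : ∀ s ∈ S0 F f t, 0 < f s := fun s hs => (Finset.mem_filter.1 hs).2.1
  have hCsNeg : ∀ c ∈ Cst F f t, f c ≤ 0 := by
    intro c hc
    obtain ⟨s, -, hs⟩ := Finset.mem_biUnion.1 hc
    exact mem_Npos.1 (Finset.mem_inter.1 hs).2
  have hP0pos : 0 < P0 := by
    rw [hP0]
    exact Finset.sum_pos hS0pos ⟨a, haS⟩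
  have hU0 : 0 ≤ U := by
    rw [hU]
    exact Finset.sum_nonneg fun c hc => by linarith [hCsNeg c hc]
  have h1 : 2 * t * U ≤ L * P0 := by
    rw [hL, hP0, hsum1, hU, Finset.mul_sum]
    refine Finset.sum_le_sum fun c hc => ?_
    refine mul_le_mul_of_nonneg_right ?_ (by linarith [hCsNeg c hc])
    exact_mod_cast hc3 c hc
  have h2 : (n - (S0 F f t).card - lam) * U = (((Cst F f t).card : ℝ) - lam) * P0 := by
    rw [hn, hU, hP0]
    exact hsum2
  obtain ⟨s0, hs0⟩ : ∃ s0 : ℝ, s0 = ((S0 F f t).card : ℝ) := ⟨_, rfl⟩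
  obtain ⟨r, hr⟩ : ∃ r : ℝ, r = ((Cst F f t).card : ℝ) := ⟨_, rfl⟩
  rw [← hs0, ← hr] at h2
  have hr1 : (t : ℝ) + 1 ≤ r := by
    have := Finset.card_le_card hc1
    rw [hRep.card] at this
    rw [hr]
    exact_mod_cast this
  have hs01 : 2 * (t : ℝ) + 2 ≤ s0 := by
    rw [hs0]
    have : (2 * (t + 1) : ℕ) ≤ (S0 F f t).card := hc2
    have h' : ((2 * (t + 1) : ℕ) : ℝ) ≤ ((S0 F f t).card : ℝ) := by exact_mod_cast this
    push_cast at h'
    linarith
  have hlam : lam < t + 1 := hctx.lt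
  have h3 : 0 < (n - s0 - lam) * U := by
    rw [h2]
    exact mul_pos (by linarith) hP0pos
  have h4 : 0 < n - s0 - lam := by
    by_contra hcon
    push Not at hcon
    have := mul_nonpos_of_nonpos_of_nonneg hcon hU0
    linarith
  have h5 : 2 * t * ((r - lam) * P0) ≤ (L * (n - s0 - lam)) * P0 := by
    calc 2 * t * ((r - lam) * P0) = (2 * t * U) * (n - s0 - lam) := by rw [← h2]; ring
      _ ≤ (L * P0) * (n - s0 - lam) := mul_le_mul_of_nonneg_right h1 h4.le
      _ = _ := by ring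
  have h6' : 2 * t * (r - lam) ≤ L * (n - s0 - lam) := by
    have : (2 * t * (r - lam)) * P0 ≤ (L * (n - s0 - lam)) * P0 := by
      refine le_trans (le_of_eq ?_) h5
      ring
    exact le_of_mul_le_mul_right this hP0pos
  have hlamL : lam = t + L := by rw [hL]; ring
  have h7 : 2 * t * (r - t) ≤ L * (n - lam - s0 + 2 * t) := by
    have e : 2 * t * (r - lam) = 2 * t * (r - t) - 2 * t * L := by rw [hlamL]; ring
    have e2 : L * (n - lam - s0 + 2 * t) = L * (n - s0 - lam) + 2 * t * L := by ring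
    rw [e] at h6'
    rw [e2]
    linarith
  have h8 : L * (n - lam - s0 + 2 * t) ≤ L * (n - lam - 2) :=
    mul_le_mul_of_nonneg_left (by linarith) hL0
  have hrt : r = t + 1 := by
    have : 2 * t * (r - t) ≤ 2 * t * 1 := by linarith
    have := le_of_mul_le_mul_left this (by linarith)
    linarith
  rw [hrt] at h7
  have h9 : L * (n - lam - 2) = 2 * t := by
    have e : 2 * (t : ℝ) * (t + 1 - t) = 2 * t := by ring
    rw [e] at h7
    linarith
  have hLpos : 0 < L := by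
    rcases hL0.lt_or_eq with h | h
    · exact h
    · rw [← h, zero_mul] at h9
      linarith
  have hs0eq : s0 = 2 * t + 2 := by
    have e : 2 * (t : ℝ) * (t + 1 - t) = 2 * t := by ring
    rw [e] at h7
    have h10 : L * (s0 - 2 * t - 2) ≤ 0 := by
      have e2 : L * (s0 - 2 * t - 2) = L * (n - lam - 2) - L * (n - lam - s0 + 2 * t) := by ring
      rw [e2]
      linarith
    have h11 : s0 - 2 * t - 2 ≤ 0 := by
      by_contra hcon
      push Not at hcon
      have := mul_pos hLpos hcon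
      linarith
    linarith
  have hcardS : (S0 F f t).card = 2 * (t + 1) := by
    have : ((S0 F f t).card : ℝ) = ((2 * (t + 1) : ℕ) : ℝ) := by
      rw [← hs0, hs0eq]
      push_cast
      ring
    exact_mod_cast this
  obtain ⟨hCC, hcl, hc2'⟩ := hc4 hcardS
  refine ⟨⟨S0 F f t, C, ?_, hRep.card, hcardS, ?_, ?_, ?_, ?_⟩, by
    rw [hL, hn] at h9
    exact h9⟩
  · rw [Finset.disjoint_left]
    intro v hv hv'
    have := hS0pos v hv
    have := hRep.neg v hv'
    linarith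
  · intro s hs v hv hvC hadj
    refine hvC ?_
    rw [← hCC]
    exact Finset.mem_biUnion.2 ⟨s, hs, hs4 s hs v hv hadj⟩
  · intro c hc v hv hvC
    rw [← hCC] at hc hvC
    exact (hs3 v hv hvC c hc).symm
  · intro c hc
    rw [← hc2' c hc]
    congr 1
    refine Finset.filter_congr fun s hs => ?_
    obtain ⟨c', hc', hcs⟩ := hcl s hs
    have hadj : F.Adj s c ↔ c ∈ Cs F f s := by
      unfold Cs
      rw [Finset.mem_inter, mem_nb, mem_Npos]
      exact ⟨fun h => ⟨h, hRep.neg c hc⟩, fun h => h.1⟩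
    rw [SimpleGraph.adj_comm, hadj]
    constructor
    · intro h
      have : c = c' := by
        by_contra hne
        exact h (by rw [hcs]; exact Finset.mem_erase.2 ⟨hne, hc⟩)
      rw [hcs, this]
    · intro h
      rw [h]
      exact Finset.notMem_erase c C
  · intro s hs
    obtain ⟨c', hc', hcs⟩ := hcl s hs
    have hadj : ∀ c ∈ C, (F.Adj c s ↔ c ∈ Cs F f s) := by
      intro c hc
      unfold Cs
      rw [Finset.mem_inter, mem_nb, mem_Npos, SimpleGraph.adj_comm]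
      exact ⟨fun h => ⟨h, hRep.neg c hc⟩, fun h => h.1⟩
    refine ⟨c', ⟨hc', ?_⟩, ?_⟩
    · rw [hadj c' hc', hcs]
      exact Finset.notMem_erase c' C
    · rintro c ⟨hc, h⟩
      by_contra hne
      refine h ?_
      rw [hadj c hc, hcs]
      exact Finset.mem_erase.2 ⟨hne, hc⟩

end Pool.Agent.H59.Lap.REA
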