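import Pool.Agent.H9.Lap.Targets

/-!
# REB: Regime B is impossible
-/

namespace Pool.Agent.H59.Lap.REB

open Finset Classical Pool.Agent.H9.Lap

theorem reb (hKAB : T_KAB) (hCLQ : T_CLQ) (hENG : T_ENG) (hSPL : T_SPL) (hGAM : T_GAM)
    (hPHI : T_PHI) (hNUI : T_NUI) (hNUJ : T_NUJ) : T_REB := by
  intro V _ F f t lam a b hB ha hb hba h6
  have hctx := hB.toCtx
  have hK := hKAB V F f t lam hctx hB.fne a b ha hb
  have hQ := hCLQ V F t hctx.cn a b hK.card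
  have hG := hGAM V F f t lam a b hB ha hb hK hQ hba h6
  obtain ⟨K, hKd⟩ : ∃ K, K = nb F a ∩ nb F b := ⟨_, rfl⟩
  rw [← hKd] at hQ hG
  have hKc : K.card = t := by rw [hKd]; exact hK.card
  set n : ℝ := (Fintype.card V : ℝ) with hn
  obtain ⟨L, hL⟩ : ∃ L : ℝ, L = lam - t := ⟨_, rfl⟩
  obtain ⟨M, hM⟩ : ∃ M : ℝ, M = f a := ⟨_, rfl⟩
  obtain ⟨m, hm⟩ : ∃ m : ℝ, m = - f b := ⟨_, rfl⟩
  have hM0 : 0 < M := by rw [hM]; exact hK.pa
  have hm0 : 0 < m := by rw [hm]; linarith [hK.nb0]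
  have hL0 : 0 ≤ L := by rw [hL]; exact hK.L0
  have hphi := hPHI V f M m hctx.sum0 (fun v => by rw [hM]; exact ha v)
    (fun v => by rw [hm, neg_neg]; exact hb v) hM0.le hm0.le (by linarith)
  have hnum : Num (t : ℝ) n L M m (Phi f) :=
    { t1 := by exact_mod_cast hctx.t1
      big := hB.big
      L0 := hL0
      L1 := by rw [hL]; linarith [hctx.lt]
      hq := by
        have := hB.hq
        rw [hL]
        have e : (Fintype.card V : ℝ) - t - (lam - t) - 2 = Fintype.card V - lam - 2 := by ring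
        rw [e]
        exact this
      m0 := hm0
      mM := by rw [hm, hM]; exact hba
      hP := hphi.1
      hB := by rw [hM, hL]; exact h6 }
  have hD : f a - f b = M + m := by rw [hM, hm]; ring
  have heng := hENG V F f lam K hctx.eig hctx.sum0 hQ.clique
  rw [hKc, ← hL] at heng
  have hspl := hSPL V F f K hQ.disj
  have hup : ((n - t) * ∑ k ∈ K, f k ^ 2 - (∑ k ∈ K, ∑ x ∈ nn F k, (f x - f k) ^ 2) +
      EN F f (PR K)) ≤ L * n * (M * m) := by
    have h1 : L * ∑ v, f v ^ 2 ≤ L * (n * M * m) := mul_le_mul_of_nonneg_left hphi.2 hL0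
    have h2 : 0 ≤ (∑ k ∈ K, f k) ^ 2 := sq_nonneg _
    have h3 : L * (n * M * m) = L * n * (M * m) := by ring
    rw [← h3]
    rw [← hn] at heng
    linarith
  rw [hD, ← hL, ← hM, ← hm] at hG
  by_cases hall : ∀ k ∈ K, 4 * (M * m) - (4 * L + 4 / (n - t - 4)) * (M + m) ^ 2 ≤
      (n - t) * f k ^ 2 + EN F f (PX (WW F K k) (nn F k)) - ∑ x ∈ nn F k, (f x - f k) ^ 2
  · have h1 := Finset.sum_le_sum hall
    rw [Finset.sum_const, hKc, nsmul_eq_mul, Finset.sum_sub_distrib, Finset.sum_add_distrib,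
      ← Finset.mul_sum] at h1
    have h2 := hspl.1
    have h3 := hNUI t n L M m (Phi f) hnum
    linarith
  · push Not at hall
    obtain ⟨k₀, hk₀, hlt⟩ := hall
    have h1 := (hG k₀ hk₀).2.resolve_left (not_le.2 hlt)
    have h2 : ∀ k ∈ K.erase k₀, 2 * (M * m) - (2 * L + 1 / (n - t - 4)) * (M + m) ^ 2 ≤
      (n - t) * f k ^ 2 + EN F f (PX (WW F K k) (nn F k)) - ∑ x ∈ nn F k, (f x - f k) ^ 2 :=
      fun k hk => (hG k (Finset.mem_of_mem_erase hk)).1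
    have h3 := Finset.sum_le_sum h2
    have hcard : ((K.erase k₀).card : ℝ) = t - 1 := by
      rw [Finset.card_erase_of_mem hk₀, hKc, Nat.cast_sub hctx.t1]
      simp
    rw [Finset.sum_const, nsmul_eq_mul, hcard, Finset.sum_sub_distrib, Finset.sum_add_distrib,
      ← Finset.mul_sum] at h3
    have h4 := hspl.2 k₀ hk₀
    have h5 := hNUJ t n L M m (Phi f) hnum
    have e1 : ∑ k ∈ K, f k ^ 2 = f k₀ ^ 2 + ∑ k ∈ K.erase k₀, f k ^ 2 :=
      (Finset.add_sum_erase K (fun k => f k ^ 2) hk₀).symm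
    have e2 : ∑ k ∈ K, ∑ x ∈ nn F k, (f x - f k) ^ 2 = ∑ x ∈ nn F k₀, (f x - f k₀) ^ 2 +
        ∑ k ∈ K.erase k₀, ∑ x ∈ nn F k, (f x - f k) ^ 2 :=
      (Finset.add_sum_erase K (fun k => ∑ x ∈ nn F k, (f x - f k) ^ 2) hk₀).symm
    rw [e1, e2] at hup
    have e3 : (n - t) * (f k₀ ^ 2 + ∑ k ∈ K.erase k₀, f k ^ 2) = (n - t) * f k₀ ^ 2 +
        (n - t) * ∑ k ∈ K.erase k₀, f k ^ 2 := by ring
    rw [e3] at hup
    have e4 : (t : ℝ) * (2 * (M * m) - (2 * L + 1 / (n - t - 4)) * (M + m) ^ 2) =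
        (2 * (M * m) - (2 * L + 1 / (n - t - 4)) * (M + m) ^ 2) +
        (t - 1) * (2 * (M * m) - (2 * L + 1 / (n - t - 4)) * (M + m) ^ 2) := by ring
    rw [e4] at h5
    linarith

end Pool.Agent.H59.Lap.REB
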